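import Mathlib

set_option autoImplicit false

namespace Pool.Agent.Results.MP_ba4857_co.OneThirdUpper

open Finset

/-- A list assignment for `K_{n,n}` (rows and columns are the two sides, `L i j` is the set of
forbidden colours of the edge `ij`) is `β`-sparse: every list has size at most `β n`, and at every
vertex every colour is forbidden on at most `β n` edges. -/
def Sparse (n : ℕ) (β : ℝ) (L : Fin n → Fin n → Finset (Fin n)) : Prop :=
  (∀ i j, ((L i j).card : ℝ) ≤ β * n) ∧
  (∀ i c, ((univ.filter (fun j => c ∈ L i j)).card : ℝ) ≤ β * n) ∧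
  (∀ j c, ((univ.filter (fun i => c ∈ L i j)).card : ℝ) ≤ β * n)

/-- `f` is a proper edge colouring of `K_{n,n}` with `n` colours. -/
def Proper (n : ℕ) (f : Fin n → Fin n → Fin n) : Prop :=
  (∀ i, Function.Injective (f i)) ∧ (∀ j, Function.Injective (fun i => f i j))

/-- The list assignment is avoidable. -/
def Avoidable (n : ℕ) (L : Fin n → Fin n → Finset (Fin n)) : Prop :=
  ∃ f : Fin n → Fin n → Fin n, Proper n f ∧ ∀ i j, f i j ∉ L i j

/-- The optimal sparsity constant. -/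
noncomputable def betaStar : ℝ :=
  sSup {β : ℝ | 0 ≤ β ∧ ∀ n : ℕ, 1 ≤ n → ∀ L : Fin n → Fin n → Finset (Fin n),
    Sparse n β L → Avoidable n L}

/-! ### The block construction -/

/-- size of a block -/
def sz {n : ℕ} (b : Fin n → Fin 3) (k : Fin 3) : ℕ := (univ.filter (fun i => b i = k)).card

/-- the forbidden lists given by three block functions -/
def LL {n : ℕ} (bx bY bz : Fin n → Fin 3) (i j : Fin n) : Finset (Fin n) :=
  univ.filter (fun c => bx i ≠ bY j ∧ bY j ≠ bz c ∧ bx i ≠ bz c)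

lemma sum_comp_sz {n : ℕ} (b : Fin n → Fin 3) (g : Fin 3 → ℕ) :
    ∑ i, g (b i) = ∑ k, sz b k * g k := by
  rw [← Finset.sum_fiberwise (s := univ) (g := b)]
  apply Finset.sum_congr rfl
  intro k _
  rw [Finset.sum_congr rfl (g := fun _ => g k)]
  · rw [Finset.sum_const, smul_eq_mul]; rfl
  · intro i hi
    rw [(Finset.mem_filter.mp hi).2]

lemma key {n : ℕ} (bx bY bz : Fin n → Fin 3) (f : Fin n → Fin n → Fin n) (hf : Proper n f)
    (hav : ∀ i j, f i j ∉ LL bx bY bz i j) :
    n * n ≤ ∑ k, sz bx k * sz bY k + ∑ k, sz bY k * sz bz k + ∑ k, sz bx k * sz bz k := by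
  have h0 : ∀ i j, 1 ≤ (if bY j = bx i then 1 else 0) + (if bz (f i j) = bY j then 1 else 0)
      + (if bz (f i j) = bx i then 1 else 0) := by
    intro i j
    by_contra hcon
    apply hav i j
    unfold LL
    rw [mem_filter]
    refine ⟨mem_univ _, ?_, ?_, ?_⟩
    · intro h
      rw [if_pos h.symm] at hcon
      omega
    · intro h
      rw [if_pos h.symm] at hcon
      omega
    · intro h
      rw [if_pos h.symm] at hcon
      omega
  have h1 : n * n ≤ ∑ i, ∑ j, ((if bY j = bx i then 1 else 0) + (if bz (f i j) = bY j then 1 else 0)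
      + (if bz (f i j) = bx i then 1 else 0)) := by
    calc n * n = ∑ i : Fin n, ∑ j : Fin n, 1 := by simp
      _ ≤ _ := Finset.sum_le_sum (fun i _ => Finset.sum_le_sum (fun j _ => h0 i j))
  have h2 : ∑ i, ∑ j, (if bY j = bx i then 1 else 0) = ∑ k, sz bx k * sz bY k := by
    rw [← sum_comp_sz bx (fun k => sz bY k)]
    apply Finset.sum_congr rfl
    intro i _
    simp [sz]
  have h3 : ∑ i, ∑ j, (if bz (f i j) = bY j then 1 else 0) = ∑ k, sz bY k * sz bz k := by
    rw [Finset.sum_comm, ← sum_comp_sz bY (fun k => sz bz k)]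
    apply Finset.sum_congr rfl
    intro j _
    have hb : Function.Bijective (fun i => f i j) := (Finite.injective_iff_bijective).mp (hf.2 j)
    have := Equiv.sum_comp (Equiv.ofBijective _ hb) (fun c => if bz c = bY j then 1 else 0)
    simp only [Equiv.ofBijective_apply] at this
    rw [this]
    simp [sz]
  have h4 : ∑ i, ∑ j, (if bz (f i j) = bx i then 1 else 0) = ∑ k, sz bx k * sz bz k := by
    rw [← sum_comp_sz bx (fun k => sz bz k)]
    apply Finset.sum_congr rfl
    intro i _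
    have hb : Function.Bijective (f i) := (Finite.injective_iff_bijective).mp (hf.1 i)
    have := Equiv.sum_comp (Equiv.ofBijective _ hb) (fun c => if bz c = bx i then 1 else 0)
    simp only [Equiv.ofBijective_apply] at this
    rw [this]
    simp [sz]
  have h5 : ∑ i, ∑ j, ((if bY j = bx i then 1 else 0) + (if bz (f i j) = bY j then 1 else 0)
      + (if bz (f i j) = bx i then 1 else 0)) = ∑ k, sz bx k * sz bY k + ∑ k, sz bY k * sz bz k
      + ∑ k, sz bx k * sz bz k := by
    rw [← h2, ← h3, ← h4]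
    simp only [Finset.sum_add_distrib]
  omega

lemma third : ∀ a b c : Fin 3, a ≠ b → b ≠ c → a ≠ c → c = -(a + b) := by decide

lemma card_list {n : ℕ} (bx bY bz : Fin n → Fin 3) (M : ℕ) (hz : ∀ k, sz bz k ≤ M) (i j : Fin n) :
    (LL bx bY bz i j).card ≤ M := by
  refine le_trans (Finset.card_le_card ?_) (hz (-(bx i + bY j)))
  intro c hc
  unfold LL at hc
  rw [mem_filter] at hc ⊢
  exact ⟨mem_univ _, third _ _ _ hc.2.1 hc.2.2.1 hc.2.2.2⟩

lemma card_row {n : ℕ} (bx bY bz : Fin n → Fin 3) (M : ℕ) (hy : ∀ k, sz bY k ≤ M) (i c : Fin n) :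
    (univ.filter (fun j => c ∈ LL bx bY bz i j)).card ≤ M := by
  refine le_trans (Finset.card_le_card ?_) (hy (-(bx i + bz c)))
  intro j hj
  unfold LL at hj
  rw [mem_filter, mem_filter] at hj
  rw [mem_filter]
  refine ⟨mem_univ _, third _ _ _ hj.2.2.2.2 hj.2.2.2.1.symm hj.2.2.1⟩

lemma card_col {n : ℕ} (bx bY bz : Fin n → Fin 3) (M : ℕ) (hx : ∀ k, sz bx k ≤ M) (j c : Fin n) :
    (univ.filter (fun i => c ∈ LL bx bY bz i j)).card ≤ M := by
  refine le_trans (Finset.card_le_card ?_) (hx (-(bY j + bz c)))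
  intro i hi
  unfold LL at hi
  rw [mem_filter, mem_filter] at hi
  rw [mem_filter]
  refine ⟨mem_univ _, third _ _ _ hi.2.2.2.1 hi.2.2.2.2.symm hi.2.2.1.symm⟩

/-- the block function with blocks of sizes `a`, `b` and the rest -/
def blk (n a b : ℕ) (i : Fin n) : Fin 3 := if i.val < a then 0 else if i.val < a + b then 1 else 2

lemma card_interval (n a b : ℕ) (h : b ≤ n) :
    (univ.filter (fun i : Fin n => a ≤ i.val ∧ i.val < b)).card = b - a := by
  have h1 : (univ.filter (fun i : Fin n => a ≤ i.val ∧ i.val < b)).card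
      = ((Finset.Ico a b)).card := by
    apply Finset.card_bij (fun i _ => i.val)
    · intro i hi
      rw [mem_filter] at hi
      rw [Finset.mem_Ico]
      exact hi.2
    · intro i _ j _ hij
      exact Fin.ext hij
    · intro x hx
      rw [Finset.mem_Ico] at hx
      exact ⟨⟨x, by omega⟩, by simp [hx.1, hx.2], rfl⟩
  rw [h1, Nat.card_Ico]

lemma sz_blk (n a b c : ℕ) (h : a + b + c = n) :
    sz (blk n a b) 0 = a ∧ sz (blk n a b) 1 = b ∧ sz (blk n a b) 2 = c := by
  have g0 : ∀ i : Fin n, blk n a b i = 0 ↔ 0 ≤ i.val ∧ i.val < a := by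
    intro i
    unfold blk
    split_ifs with h1 h2
    · exact ⟨fun _ => ⟨Nat.zero_le _, h1⟩, fun _ => rfl⟩
    · exact ⟨fun h => absurd h (by decide), fun h => absurd h.2 h1⟩
    · exact ⟨fun h => absurd h (by decide), fun h => absurd h.2 h1⟩
  have g1 : ∀ i : Fin n, blk n a b i = 1 ↔ a ≤ i.val ∧ i.val < a + b := by
    intro i
    unfold blk
    split_ifs with h1 h2
    · exact ⟨fun h => absurd h (by decide), fun h => absurd h1 (not_lt.mpr h.1)⟩
    · exact ⟨fun _ => ⟨not_lt.mp h1, h2⟩, fun _ => rfl⟩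
    · exact ⟨fun h => absurd h (by decide), fun h => absurd h.2 h2⟩
  have g2 : ∀ i : Fin n, blk n a b i = 2 ↔ a + b ≤ i.val ∧ i.val < n := by
    intro i
    have hi := i.isLt
    unfold blk
    split_ifs with h1 h2
    · exact ⟨fun h => absurd h (by decide), fun h => absurd h.1 (by omega)⟩
    · exact ⟨fun h => absurd h (by decide), fun h => absurd h.1 (by omega)⟩
    · exact ⟨fun _ => ⟨not_lt.mp h2, hi⟩, fun _ => rfl⟩
  unfold sz
  simp only [g0, g1, g2]
  rw [card_interval n 0 a (by omega), card_interval n a (a + b) (by omega),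
    card_interval n (a + b) n (by omega)]
  omega

/-- main finite construction -/
lemma exists_unavoidable (n : ℕ) (hn : 1 ≤ n) : ∃ L : Fin n → Fin n → Finset (Fin n),
    (∀ i j, (L i j).card ≤ n / 3 + 1) ∧
    (∀ i c, (univ.filter (fun j => c ∈ L i j)).card ≤ n / 3 + 1) ∧
    (∀ j c, (univ.filter (fun i => c ∈ L i j)).card ≤ n / 3 + 1) ∧ ¬ Avoidable n L := by
  have main : ∀ a1 b1 c1 a2 b2 c2 a3 b3 c3 : ℕ, a1 + b1 + c1 = n → a2 + b2 + c2 = n →
      a3 + b3 + c3 = n → a1 ≤ n / 3 + 1 → b1 ≤ n / 3 + 1 → c1 ≤ n / 3 + 1 →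
      a2 ≤ n / 3 + 1 → b2 ≤ n / 3 + 1 → c2 ≤ n / 3 + 1 →
      a3 ≤ n / 3 + 1 → b3 ≤ n / 3 + 1 → c3 ≤ n / 3 + 1 →
      (a1 * a2 + b1 * b2 + c1 * c2) + (a2 * a3 + b2 * b3 + c2 * c3)
        + (a1 * a3 + b1 * b3 + c1 * c3) < n * n →
      ∃ L : Fin n → Fin n → Finset (Fin n),
    (∀ i j, (L i j).card ≤ n / 3 + 1) ∧
    (∀ i c, (univ.filter (fun j => c ∈ L i j)).card ≤ n / 3 + 1) ∧
    (∀ j c, (univ.filter (fun i => c ∈ L i j)).card ≤ n / 3 + 1) ∧ ¬ Avoidable n L := by
    intro a1 b1 c1 a2 b2 c2 a3 b3 c3 h1 h2 h3 ha1 hb1 hc1 ha2 hb2 hc2 ha3 hb3 hc3 hlt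
    obtain ⟨x0, x1, x2⟩ := sz_blk n a1 b1 c1 h1
    obtain ⟨y0, y1, y2⟩ := sz_blk n a2 b2 c2 h2
    obtain ⟨z0, z1, z2⟩ := sz_blk n a3 b3 c3 h3
    refine ⟨LL (blk n a1 b1) (blk n a2 b2) (blk n a3 b3), ?_, ?_, ?_, ?_⟩
    · apply card_list
      intro k
      fin_cases k
      · simpa [z0] using ha3
      · simpa [z1] using hb3
      · simpa [z2] using hc3
    · apply card_row
      intro k
      fin_cases k
      · simpa [y0] using ha2
      · simpa [y1] using hb2
      · simpa [y2] using hc2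
    · apply card_col
      intro k
      fin_cases k
      · simpa [x0] using ha1
      · simpa [x1] using hb1
      · simpa [x2] using hc1
    · rintro ⟨f, hf, hav⟩
      have := key _ _ _ f hf hav
      simp only [Fin.sum_univ_three, x0, x1, x2, y0, y1, y2, z0, z1, z2] at this
      omega
  obtain ⟨m, hm | hm | hm⟩ : ∃ m, n = 3 * m + 3 ∨ n = 3 * m + 1 ∨ n = 3 * m + 2 := by
    refine ⟨(n - 1) / 3, ?_⟩
    omega
  · have e : n / 3 = m + 1 := by omega
    refine main (m + 2) m (m + 1) (m + 1) (m + 2) m m (m + 1) (m + 2) (by omega) (by omega)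
      (by omega) (by omega) (by omega) (by omega) (by omega) (by omega) (by omega) (by omega)
      (by omega) (by omega) ?_
    rw [hm]
    nlinarith
  · have e : n / 3 = m := by omega
    refine main (m + 1) m m m (m + 1) m m m (m + 1) (by omega) (by omega)
      (by omega) (by omega) (by omega) (by omega) (by omega) (by omega) (by omega) (by omega)
      (by omega) (by omega) ?_
    rw [hm]
    nlinarith
  · have e : n / 3 = m := by omega
    refine main (m + 1) m (m + 1) (m + 1) (m + 1) m m (m + 1) (m + 1) (by omega) (by omega)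
      (by omega) (by omega) (by omega) (by omega) (by omega) (by omega) (by omega) (by omega)
      (by omega) (by omega) ?_
    rw [hm]
    nlinarith

/-- For every `β > 1/3` and all large `n` some `β`-sparse assignment is not avoidable. -/
lemma eventually_unavoidable (β : ℝ) (hβ : 1 / 3 < β) : ∃ n0 : ℕ, ∀ n : ℕ, n0 ≤ n →
    ∃ L : Fin n → Fin n → Finset (Fin n), Sparse n β L ∧ ¬ Avoidable n L := by
  obtain ⟨n0, hn0⟩ := exists_nat_gt (1 / (β - 1 / 3))
  refine ⟨n0 + 1, fun n hn => ?_⟩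
  obtain ⟨L, h1, h2, h3, h4⟩ := exists_unavoidable n (by omega)
  have hpos : 0 < β - 1 / 3 := by linarith
  have hb : ((n / 3 + 1 : ℕ) : ℝ) ≤ β * n := by
    have hn' : ((n0 : ℕ) : ℝ) ≤ (n : ℝ) := by exact_mod_cast (by omega : n0 ≤ n)
    have h5 : 1 < (β - 1 / 3) * n := by
      have : 1 / (β - 1 / 3) < n := lt_of_lt_of_le hn0 hn'
      rw [div_lt_iff₀ hpos] at this
      linarith
    have h6 : ((n / 3 : ℕ) : ℝ) ≤ (n : ℝ) / 3 := by
      have := @Nat.cast_div_le ℝ _ _ _ n 3
      simpa using this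
    push_cast
    linarith
  refine ⟨L, ⟨?_, ?_, ?_⟩, h4⟩
  · intro i j
    exact le_trans (by exact_mod_cast h1 i j) hb
  · intro i c
    exact le_trans (by exact_mod_cast h2 i c) hb
  · intro j c
    exact le_trans (by exact_mod_cast h3 j c) hb

/-! ### Order three -/

/-- the forbidden lists of the example of order three -/
def L3 : Fin 3 → Fin 3 → Finset (Fin 3) :=
  ![![∅, {0}, {1}], ![{0}, ∅, {2}], ![{2}, {1}, {0}]]

lemma L3_unavoidable : ¬ Avoidable 3 L3 := by
  rintro ⟨f, ⟨h1, h2⟩, h3⟩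
  have a1 := (h1 2).ne (show (0 : Fin 3) ≠ 1 by decide)
  have a2 := (h1 2).ne (show (0 : Fin 3) ≠ 2 by decide)
  have a3 := (h1 2).ne (show (1 : Fin 3) ≠ 2 by decide)
  have b1 := (h1 0).ne (show (0 : Fin 3) ≠ 1 by decide)
  have b2 := (h1 0).ne (show (0 : Fin 3) ≠ 2 by decide)
  have b3 := (h1 0).ne (show (1 : Fin 3) ≠ 2 by decide)
  have c1 := (h1 1).ne (show (0 : Fin 3) ≠ 1 by decide)
  have c2 := (h1 1).ne (show (0 : Fin 3) ≠ 2 by decide)
  have c3 := (h1 1).ne (show (1 : Fin 3) ≠ 2 by decide)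
  have d1 := (h2 0).ne (show (0 : Fin 3) ≠ 1 by decide)
  have d2 := (h2 0).ne (show (0 : Fin 3) ≠ 2 by decide)
  have d3 := (h2 0).ne (show (1 : Fin 3) ≠ 2 by decide)
  have e1 := (h2 1).ne (show (0 : Fin 3) ≠ 1 by decide)
  have e2 := (h2 1).ne (show (0 : Fin 3) ≠ 2 by decide)
  have e3 := (h2 1).ne (show (1 : Fin 3) ≠ 2 by decide)
  have g1 := (h2 2).ne (show (0 : Fin 3) ≠ 1 by decide)
  have g2 := (h2 2).ne (show (0 : Fin 3) ≠ 2 by decide)
  have g3 := (h2 2).ne (show (1 : Fin 3) ≠ 2 by decide)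
  have k1 : f 0 1 ≠ 0 := by have := h3 0 1; simpa [L3] using this
  have k2 : f 0 2 ≠ 1 := by have := h3 0 2; simpa [L3] using this
  have k3 : f 1 0 ≠ 0 := by have := h3 1 0; simpa [L3] using this
  have k4 : f 1 2 ≠ 2 := by have := h3 1 2; simpa [L3] using this
  have k5 : f 2 0 ≠ 2 := by have := h3 2 0; simpa [L3] using this
  have k6 : f 2 1 ≠ 1 := by have := h3 2 1; simpa [L3] using this
  have k7 : f 2 2 ≠ 0 := by have := h3 2 2; simpa [L3] using this
  generalize f 0 0 = x00 at *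
  generalize f 0 1 = x01 at *
  generalize f 0 2 = x02 at *
  generalize f 1 0 = x10 at *
  generalize f 1 1 = x11 at *
  generalize f 1 2 = x12 at *
  generalize f 2 0 = x20 at *
  generalize f 2 1 = x21 at *
  generalize f 2 2 = x22 at *
  clear h1 h2 h3
  omega

lemma L3_sparse : Sparse 3 (1 / 3) L3 := by
  have h1 : ∀ i j, (L3 i j).card ≤ 1 := by decide
  have h2 : ∀ i c, (univ.filter (fun j => c ∈ L3 i j)).card ≤ 1 := by decide
  have h3 : ∀ j c, (univ.filter (fun i => c ∈ L3 i j)).card ≤ 1 := by decide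
  have e : (1 / 3 : ℝ) * ((3 : ℕ) : ℝ) = 1 := by norm_num
  refine ⟨?_, ?_, ?_⟩
  · intro i j; rw [e]; exact_mod_cast h1 i j
  · intro i c; rw [e]; exact_mod_cast h2 i c
  · intro j c; rw [e]; exact_mod_cast h3 j c

/-- `β* ≤ 1/3`, the value `1/3` itself is not admissible, and the upper bound `1/3` holds for every
order: for each `n ≥ 1` some list assignment for `K_{n,n}` in which all lists have size at most
`⌊n/3⌋ + 1` and every colour is forbidden at most `⌊n/3⌋ + 1` times at each vertex cannot be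
avoided. -/
theorem result :
    betaStar ≤ 1 / 3 ∧
    (¬ ∀ n : ℕ, 1 ≤ n → ∀ L : Fin n → Fin n → Finset (Fin n),
      Sparse n (1 / 3) L → Avoidable n L) ∧
    (∀ β : ℝ, 1 / 3 < β → ∃ n0 : ℕ, ∀ n : ℕ, n0 ≤ n →
      ∃ L : Fin n → Fin n → Finset (Fin n), Sparse n β L ∧ ¬ Avoidable n L) ∧
    (∀ n : ℕ, 1 ≤ n → ∃ L : Fin n → Fin n → Finset (Fin n),
      (∀ i j, (L i j).card ≤ n / 3 + 1) ∧
      (∀ i c, (univ.filter (fun j => c ∈ L i j)).card ≤ n / 3 + 1) ∧
      (∀ j c, (univ.filter (fun i => c ∈ L i j)).card ≤ n / 3 + 1) ∧ ¬ Avoidable n L) := by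
  refine ⟨?_, ?_, eventually_unavoidable, exists_unavoidable⟩
  · unfold betaStar
    apply Real.sSup_le
    · rintro β ⟨_, hβ⟩
      by_contra hlt
      rw [not_le] at hlt
      obtain ⟨n0, h⟩ := eventually_unavoidable β hlt
      obtain ⟨L, h1, h2⟩ := h (n0 + 1) (by omega)
      exact h2 (hβ (n0 + 1) (by omega) L h1)
    · norm_num
  · intro h
    exact L3_unavoidable (h 3 (by norm_num) L3 L3_sparse)

end Pool.Agent.Results.MP_ba4857_co.OneThirdUpper
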